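import Pool.Agent.K3h88.Erde.Final
import Pool.Agent.TH486.LAC.Lift
import Pool.Agent.W111.LAR.Top
import Pool.Agent.W111.LAR.Odd

set_option autoImplicit false

/-!
# Blocks of commuting independent involutions in Cayley graphs

A block is given by an injective homomorphism from `(ℤ/2)^(2 s)`; the Cayley graph of the images of
the unit vectors is a union of disjoint cubes, which are decomposed into Hamiltonian cycles.
-/

namespace Pool.Agent.U390.CI

open SimpleGraph H931R3.LA Pool.Agent.W111.LAR Pool.Agent.TH486.LAC Pool.Agent.K3h88.Erde Finset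

/-- The graph of a set of edges. -/
def edg {X : Type} (F : Set (Sym2 X)) : SimpleGraph X where
  Adj x y := x ≠ y ∧ s(x, y) ∈ F
  symm.symm x y h := ⟨h.1.symm, by rw [Sym2.eq_swap]; exact h.2⟩
  loopless.irrefl x h := h.1 rfl

theorem edg_deg {X : Type} [Fintype X] {F : Set (Sym2 X)} (hF : IsHC F) (x : X) :
    ((edg F).neighborSet x).ncard ≤ 2 := by
  obtain ⟨h3, φ, hφ, rfl⟩ := Pool.Agent.K3h11.Erde.p2c X F hF
  obtain ⟨u, rfl⟩ := hφ.2 x
  have hsub : (edg (Sym2.map φ '' cyE (Fintype.card X))).neighborSet (φ u) ⊆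
      {φ (u + 1), φ (u - 1)} := by
    rintro y ⟨_, e, ⟨w, rfl⟩, he⟩
    rw [Sym2.map_mk] at he
    rcases Sym2.eq_iff.1 he with ⟨h1, h2⟩ | ⟨h1, h2⟩
    · have := hφ.1 h1
      subst this
      exact Or.inl h2.symm
    · have := hφ.1 h2
      right
      rw [Set.mem_singleton_iff, ← h1, ← this, add_sub_cancel_right]
  exact (Set.ncard_le_ncard hsub (Set.toFinite _)).trans
    ((Set.ncard_insert_le _ _).trans (by simp))

theorem edg_reach {X : Type} [Fintype X] {F : Set (Sym2 X)} (hF : IsHC F) (x y : X) :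
    (edg F).Reachable x y := by
  obtain ⟨h3, φ, hφ, rfl⟩ := Pool.Agent.K3h11.Erde.p2c X F hF
  have : Fact (1 < Fintype.card X) := ⟨by omega⟩
  have hne : NeZero (Fintype.card X) := ⟨by omega⟩
  have hstep : ∀ u, (edg (Sym2.map φ '' cyE (Fintype.card X))).Adj (φ u) (φ (u + 1)) := by
    intro u
    refine ⟨fun h => ?_, s(u, u + 1), ⟨u, rfl⟩, by rw [Sym2.map_mk]⟩
    have h1 := hφ.1 h
    have h2 : (1 : ZMod (Fintype.card X)) = 0 := by
      have := congrArg (fun z => z - u) h1
      simpa using this.symm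
    exact one_ne_zero h2
  have hn : ∀ n : ℕ, (edg (Sym2.map φ '' cyE (Fintype.card X))).Reachable (φ 0) (φ n) := by
    intro n
    induction n with
    | zero => simp
    | succ n ih =>
      refine ih.trans ?_
      rw [Nat.cast_succ]
      exact (hstep _).reachable
  have hall : ∀ x, (edg (Sym2.map φ '' cyE (Fintype.card X))).Reachable (φ 0) x := by
    intro x
    obtain ⟨u, rfl⟩ := hφ.2 x
    have := hn u.val
    rwa [ZMod.natCast_zmod_val] at this
  exact (hall x).symm.trans (hall y)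

/-- Copies of `D` in the fibres of `f`. -/
def tr {V Q X : Type} (f : V → Q) (κ : V → X) (D : SimpleGraph X) : SimpleGraph V where
  Adj u v := f u = f v ∧ D.Adj (κ u) (κ v)
  symm.symm u v h := ⟨h.1.symm, h.2.symm⟩
  loopless.irrefl u h := D.loopless.irrefl _ h.2

theorem tr_deg {V Q X : Type} [Finite X] {f : V → Q} {κ : V → X}
    (hb : Function.Injective (fun v => (f v, κ v))) (D : SimpleGraph X) (v : V) :
    ((tr f κ D).neighborSet v).ncard ≤ (D.neighborSet (κ v)).ncard := by
  have hinj : Set.InjOn κ ((tr f κ D).neighborSet v) := by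
    intro a ha b hb' hab
    apply hb
    show (f a, κ a) = (f b, κ b)
    rw [hab, ← ha.1, ← hb'.1]
  rw [← hinj.ncard_image]
  refine Set.ncard_le_ncard ?_ (Set.toFinite _)
  rintro _ ⟨a, ha, rfl⟩
  exact ha.2

theorem tr_size {V Q X : Type} [Finite V] [Finite X] {f : V → Q} {κ : V → X}
    (hb : Function.Bijective (fun v => (f v, κ v))) (D : SimpleGraph X)
    (hD : ∀ x y, D.Reachable x y) (v : V) : Nat.card X ≤ csize (tr f κ D) v := by
  choose g hg using fun p : Q × X => hb.2 p
  have hg1 : ∀ q x, f (g (q, x)) = q := fun q x => congrArg Prod.fst (hg (q, x))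
  have hg2 : ∀ q x, κ (g (q, x)) = x := fun q x => congrArg Prod.snd (hg (q, x))
  have hgi : Function.Injective fun x : X => g (f v, x) := by
    intro x y h
    have h1 : κ (g (f v, x)) = κ (g (f v, y)) := congrArg κ h
    rwa [hg2, hg2] at h1
  have hv : g (f v, κ v) = v := hb.1 (hg (f v, κ v))
  have hwalk : ∀ {x y : X} (_p : D.Walk x y),
      (tr f κ D).Reachable (g (f v, x)) (g (f v, y)) := by
    intro x y p
    induction p with
    | nil => exact Reachable.refl _
    | cons h p ih =>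
      refine Reachable.trans (Adj.reachable ?_) ih
      exact ⟨by rw [hg1, hg1], by rw [hg2, hg2]; exact h⟩
  have hsub : Set.range (fun x : X => g (f v, x)) ⊆ {w | (tr f κ D).Reachable v w} := by
    rintro _ ⟨x, rfl⟩
    obtain ⟨p⟩ := hD (κ v) x
    have h1 := hwalk p
    rw [hv] at h1
    exact h1
  have h2 := Set.ncard_le_ncard hsub (Set.toFinite _)
  rw [← Set.image_univ, Set.ncard_image_of_injective _ hgi, Set.ncard_univ] at h2
  exact h2

/-- The unit vector number `i` in the block given by `φ`. -/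
def gn {Γ : Type} [Group Γ] {n : ℕ} (φ : Multiplicative (Fin n → ZMod 2) →* Γ) (i : Fin n) : Γ :=
  φ (Multiplicative.ofAdd (Pi.single i 1))

theorem gn_sq {Γ : Type} [Group Γ] {n : ℕ} (φ : Multiplicative (Fin n → ZMod 2) →* Γ)
    (i : Fin n) : gn φ i * gn φ i = 1 := by
  unfold gn
  rw [← map_mul, ← ofAdd_add, ← Pi.single_add]
  have : (1 : ZMod 2) + 1 = 0 := by decide
  rw [this, Pi.single_zero, ofAdd_zero, map_one]

/-- The vector of a string of bits. -/
def vec {n : ℕ} (x : Fin n → Bool) : Fin n → ZMod 2 := fun i => if x i then 1 else 0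

theorem vec_inj {n : ℕ} : Function.Injective (vec (n := n)) := by
  intro x y h
  funext i
  have h1 := congrFun h i
  unfold vec at h1
  cases hx : x i <;> cases hy : y i <;> simp_all

theorem vec_update {n : ℕ} (x : Fin n → Bool) (i : Fin n) :
    vec (Function.update x i (!x i)) = vec x + Pi.single i 1 := by
  funext j
  unfold vec
  by_cases hj : j = i
  · subst hj
    rw [Pi.add_apply, Pi.single_eq_same, Function.update_self]
    cases x j
    · simp
    · simp only [Bool.not_true, Bool.false_eq_true, if_false, if_true]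
      decide
  · rw [Pi.add_apply, Pi.single_eq_of_ne hj, Function.update_of_ne hj, add_zero]

theorem vec_surj {n : ℕ} (z : Fin n → ZMod 2) : ∃ x, vec x = z := by
  refine ⟨fun i => decide (z i = 1), ?_⟩
  funext i
  unfold vec
  have h : z i = 0 ∨ z i = 1 := by
    generalize z i = w
    revert w
    decide
  rcases h with h | h
  · simp [h]
  · simp [h]

theorem block {Γ : Type} [Group Γ] [Finite Γ] (s : ℕ)
    (φ : Multiplicative (Fin (2 * s) → ZMod 2) →* Γ) (hφ : Function.Injective φ) :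
    ∃ H : Fin s → SimpleGraph Γ, (∀ a v, ((H a).neighborSet v).ncard ≤ 2) ∧
      (∀ a v, 2 ^ (2 * s) ≤ csize (H a) v) ∧
      ∀ g h, (∃ a, (H a).Adj g h) ↔ ∃ i, h = g * gn φ i := by
  rcases Nat.eq_zero_or_pos s with rfl | hs
  · exact ⟨fun a => a.elim0, fun a => a.elim0, fun a => a.elim0, fun g h =>
      ⟨fun ⟨a, _⟩ => a.elim0, fun ⟨i, _⟩ => i.elim0⟩⟩
  obtain ⟨F, hF1, hF2, hF3⟩ := hcd s hs
  let P : Subgroup Γ := φ.range
  let β : (Fin (2 * s) → Bool) → Γ := fun x => φ (Multiplicative.ofAdd (vec x))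
  have hβ : Function.Injective β := fun x y h => vec_inj (hφ h)
  have hβu : ∀ x i, β (Function.update x i (!x i)) = β x * gn φ i := by
    intro x i
    show φ _ = φ _ * φ _
    rw [vec_update, ofAdd_add, map_mul]
  let rp : Γ → Γ := fun g => Quotient.out (QuotientGroup.mk g : Γ ⧸ P)
  have hrp : ∀ g, ∃ x, g = rp g * β x := by
    intro g
    have h1 : (QuotientGroup.mk (rp g) : Γ ⧸ P) = QuotientGroup.mk g := Quotient.out_eq _
    have h2 : (rp g)⁻¹ * g ∈ P := QuotientGroup.eq.1 h1
    obtain ⟨z, hz⟩ := h2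
    obtain ⟨x, hx⟩ := vec_surj (Multiplicative.toAdd z)
    refine ⟨x, ?_⟩
    show g = rp g * φ (Multiplicative.ofAdd (vec x))
    rw [hx, ofAdd_toAdd, hz, mul_inv_cancel_left]
  choose κ hκ using hrp
  have hmk : ∀ g x, (QuotientGroup.mk (g * β x) : Γ ⧸ P) = QuotientGroup.mk g := by
    intro g x
    symm
    rw [QuotientGroup.eq, inv_mul_cancel_left]
    exact ⟨_, rfl⟩
  have hmk' : ∀ g i, (QuotientGroup.mk (g * gn φ i) : Γ ⧸ P) = QuotientGroup.mk g := by
    intro g i
    symm
    rw [QuotientGroup.eq, inv_mul_cancel_left]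
    exact ⟨_, rfl⟩
  let f : Γ → Γ ⧸ P := fun g => QuotientGroup.mk g
  have hb : Function.Bijective (fun g => (f g, κ g)) := by
    constructor
    · intro g h hgh
      have h1 : f g = f h := congrArg Prod.fst hgh
      have h2 : κ g = κ h := congrArg Prod.snd hgh
      have h3 : rp g = rp h := congrArg Quotient.out h1
      rw [hκ g, hκ h, h2, h3]
    · rintro ⟨q, x⟩
      have h1 : f (Quotient.out q * β x) = q := by
        show QuotientGroup.mk (Quotient.out q * β x) = q
        rw [hmk]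
        exact Quotient.out_eq _
      have h2 : rp (Quotient.out q * β x) = Quotient.out q := congrArg Quotient.out h1
      have h3 := hκ (Quotient.out q * β x)
      rw [h2] at h3
      have h4 := hβ (mul_left_cancel h3)
      refine ⟨Quotient.out q * β x, ?_⟩
      show (f _, κ _) = (q, x)
      rw [h1, ← h4]
  refine ⟨fun a => tr f κ (edg (F a)), fun a v => ?_, fun a v => ?_, fun g h => ?_⟩
  · exact (tr_deg hb.1 _ v).trans (edg_deg (hF1 a) _)
  · have h1 := tr_size hb (edg (F a)) (edg_reach (hF1 a)) v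
    rw [Nat.card_eq_fintype_card, Fintype.card_fun, Fintype.card_bool, Fintype.card_fin] at h1
    exact h1
  · constructor
    · rintro ⟨a, h1, _, h2⟩
      have h3 : s(κ g, κ h) ∈ cubeE (Fin (2 * s)) := by
        rw [hF3]; exact Set.mem_iUnion.2 ⟨a, h2⟩
      have h4 : rp g = rp h := congrArg Quotient.out h1
      obtain ⟨x, i, hx⟩ := h3
      refine ⟨i, ?_⟩
      rcases Sym2.eq_iff.1 hx with ⟨h5, h6⟩ | ⟨h5, h6⟩
      · rw [hκ h, h6, hβu, ← mul_assoc, ← h5, ← h4, ← hκ g]
      · have h7 : g = h * gn φ i := by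
          conv_lhs => rw [hκ g, h5, hβu, ← mul_assoc, ← h6, h4, ← hκ h]
        rw [h7, mul_assoc, gn_sq, mul_one]
    · rintro ⟨i, rfl⟩
      have h1 : f g = f (g * gn φ i) := (hmk' g i).symm
      have h4 : rp g = rp (g * gn φ i) := congrArg Quotient.out h1
      have h5 : κ (g * gn φ i) = Function.update (κ g) i (!κ g i) := by
        apply hβ
        rw [hβu]
        apply mul_left_cancel (a := rp g)
        rw [← mul_assoc, ← hκ g]
        conv_rhs => rw [hκ (g * gn φ i), ← h4]
      have h6 : s(κ g, κ (g * gn φ i)) ∈ ⋃ a, F a := by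
        rw [← hF3, h5]
        exact ⟨κ g, i, rfl⟩
      obtain ⟨a, ha⟩ := Set.mem_iUnion.1 h6
      refine ⟨a, h1, fun h7 => ?_, ha⟩
      rw [h5] at h7
      have := congrFun h7 i
      rw [Function.update_self] at this
      cases hh : κ g i <;> rw [hh] at this <;> simp at this

/-- Assembly, even degree. -/
theorem ld_blocks {Γ : Type} [Group Γ] [Finite Γ] {J : Type} [Fintype J] (s : J → ℕ)
    (φ : ∀ j, Multiplicative (Fin (2 * s j) → ZMod 2) →* Γ)
    (hφ : ∀ j, Function.Injective (φ j))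
    (hload : ∑ j, ((2 * s j : ℕ) : ℝ) / 2 ^ (2 * s j) ≤ 1) (X : SimpleGraph Γ)
    (hX : ∀ g h, X.Adj g h ↔ ∃ j i, h = g * gn (φ j) i) : LD X (∑ j, s j) := by
  choose H h1 h2 h3 using fun j => block (s j) (φ j) (hφ j)
  refine ⟨Σ j, Fin (s j), inferInstance, fun p => H p.1 p.2, ?_, fun p v => h1 _ _ _, fun v => ?_,
    ?_⟩
  · rw [Fintype.card_sigma]
    simp
  · rw [Fintype.sum_sigma]
    refine le_trans (sum_le_sum fun j _ => ?_) hload
    have h4 : ∀ a : Fin (s j), (2 : ℝ) / csize (H j a) v ≤ 2 / 2 ^ (2 * s j) := by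
      intro a
      have h5 : ((2 ^ (2 * s j) : ℕ) : ℝ) ≤ csize (H j a) v := by exact_mod_cast h2 j a v
      push_cast at h5
      exact div_le_div_of_nonneg_left (by norm_num) (by positivity) h5
    refine (sum_le_sum fun a _ => h4 a).trans (le_of_eq ?_)
    rw [sum_const, card_univ, Fintype.card_fin, nsmul_eq_mul]
    push_cast
    ring
  · ext g h
    rw [hX, iSup_adj]
    constructor
    · rintro ⟨j, hi⟩
      obtain ⟨a, ha⟩ := (h3 j g h).2 hi
      exact ⟨⟨j, a⟩, ha⟩
    · rintro ⟨⟨j, a⟩, ha⟩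
      exact ⟨j, (h3 j g h).1 ⟨a, ha⟩⟩

/-- Assembly, odd degree. -/
theorem cov_odd {Γ : Type} [Group Γ] [Finite Γ] {J : Type} [Fintype J] (s : J → ℕ)
    (φ : ∀ j, Multiplicative (Fin (2 * s j) → ZMod 2) →* Γ)
    (hφ : ∀ j, Function.Injective (φ j))
    (hL : ∀ j, 0 < s j → 12 * ∑ j, s j ≤ 2 ^ (2 * s j) + 8) (t : Γ) (ht : t * t = 1)
    (ht1 : t ≠ 1) (X : SimpleGraph Γ)
    (hX : ∀ g h, X.Adj g h ↔ (h = g * t ∨ ∃ j i, h = g * gn (φ j) i)) :
    Cov X ((∑ j, s j) + 1) := by
  choose H h1 h2 h3 using fun j => block (s j) (φ j) (hφ j)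
  have hcard : Fintype.card (Σ j, Fin (s j)) = ∑ j, s j := by
    rw [Fintype.card_sigma]
    simp
  have h4 := cov_matching (κ := Σ j, Fin (s j)) (fun p => H p.1 p.2) (gen t ht1)
    (fun p v => h1 _ _ _) (fun g => by
      have hsub : (gen t ht1).neighborSet g ⊆ {g * t} := by
        rintro h (hh | hh)
        · exact hh
        · rw [Set.mem_singleton_iff, hh, mul_assoc, ht, mul_one]
      exact le_trans (Set.ncard_le_ncard hsub (Set.toFinite _)) (by simp))
    (12 * ∑ j, s j - 8) (by rw [hcard]; omega) (fun p v _ => by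
      have h5 := h2 p.1 p.2 v
      have h6 := hL p.1 (Fin.pos p.2)
      show 12 * ∑ j, s j - 8 ≤ csize (H p.1 p.2) v
      omega)
  rw [hcard] at h4
  have h5 : X = gen t ht1 ⊔ ⨆ p : (Σ j, Fin (s j)), H p.1 p.2 := by
    ext g h
    rw [hX, sup_adj, iSup_adj]
    constructor
    · rintro (hh | ⟨j, hi⟩)
      · exact Or.inl (Or.inl hh)
      · obtain ⟨a, ha⟩ := (h3 j g h).2 hi
        exact Or.inr ⟨⟨j, a⟩, ha⟩
    · rintro (hh | ⟨⟨j, a⟩, ha⟩)
      · left
        rcases hh with hh | hh
        · exact hh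
        · rw [hh, mul_assoc, ht, mul_one]
      · exact Or.inr ⟨j, (h3 j g h).1 ⟨a, ha⟩⟩
  rw [h5]
  exact h4

end Pool.Agent.U390.CI
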