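import Pool.Agent.U390.CI.Part

set_option autoImplicit false

/-!
# The linear arboricity conjecture for cubelike graphs
-/

namespace Pool.Agent.U390.CI

open Finset Module SimpleGraph H931R3.LA Pool.Agent.W111.LAR Pool.Agent.TH486.LAC

section
variable {V : Type} [AddCommGroup V] [Module (ZMod 2) V]

theorem self_add (v : V) : v + v = 0 := by
  have h : (2 : ZMod 2) = 0 := by decide
  rw [← two_smul (ZMod 2) v, h, zero_smul]

theorem neg_self' (v : V) : -v = v := by
  rw [neg_eq_iff_add_eq_zero, self_add]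

theorem mul_gn_iff {n : ℕ} (φ : Multiplicative (Fin n → ZMod 2) →* Multiplicative V) (i : Fin n)
    (g h : Multiplicative V) :
    h = g * gn φ i ↔ gn φ i = Multiplicative.ofAdd (Multiplicative.toAdd g +
      Multiplicative.toAdd h) := by
  have e : Multiplicative.ofAdd (Multiplicative.toAdd g + Multiplicative.toAdd h) = g⁻¹ * h := by
    apply Multiplicative.toAdd.injective
    rw [toAdd_ofAdd, toAdd_mul, toAdd_inv, neg_self']
  rw [e]
  constructor
  · intro hh
    rw [hh, inv_mul_cancel_left]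
  · intro hh
    rw [hh, mul_inv_cancel_left]

variable [Finite V] [DecidableEq V]

theorem pow_bound {K c s : ℕ} (hK : K ≤ 2 * s + 2) (h : 24 * c ≤ 2 ^ K) :
    6 * c ≤ 2 ^ (2 * s) := by
  have h1 : 2 ^ K ≤ 2 ^ (2 * s + 2) := Nat.pow_le_pow_right (by norm_num) hK
  rw [pow_add] at h1
  omega

theorem cube_even (S : Finset V) (K : ℕ) (hKe : Even K) (hne : S.Nonempty)
    (h1 : K ^ 2 ≤ 2 * S.card) (h2 : 24 * S.card ≤ 2 ^ K)
    (hU : ∀ U : Submodule (ZMod 2) V, K * {s | s ∈ S ∧ s ∈ U}.ncard ≤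
      S.card * finrank (ZMod 2) U) (X : SimpleGraph V) (hX : ∀ u v, X.Adj u v ↔ u + v ∈ S)
    (hev : Even S.card) : LD X (S.card / 2) := by
  have hc := hne.card_pos
  have hK2 : 2 ≤ K := by
    by_contra hcon
    have : K = 0 ∨ K = 1 := by omega
    rcases this with rfl | rfl
    · simp at h2; omega
    · simp at h2; omega
  obtain ⟨t, s, φ, hφ, hs, hsum, hmem⟩ := blocks S S (Subset.refl _) hev (by omega) K hKe hK2 h1 hU
  have e1 : S.card / 2 = ∑ j, s j := by omega
  rw [e1]
  refine ld_blocks (Γ := Multiplicative V) s φ hφ ?_ X ?_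
  · have h3 : ∀ j, ((2 * s j : ℕ) : ℝ) / 2 ^ (2 * s j) ≤ ((2 * s j : ℕ) : ℝ) / (S.card : ℝ) := by
      intro j
      have h4 := pow_bound (hs j) h2
      have h5 : (S.card : ℝ) ≤ 2 ^ (2 * s j) := by
        have : S.card ≤ 2 ^ (2 * s j) := by omega
        exact_mod_cast this
      exact div_le_div_of_nonneg_left (by positivity) (by exact_mod_cast hc) h5
    refine (sum_le_sum fun j _ => h3 j).trans ?_
    rw [← sum_div, ← Nat.cast_sum, ← mul_sum, hsum]
    exact (div_self (by exact_mod_cast hc.ne')).le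
  · intro g h
    have h3 := hX (Multiplicative.toAdd g) (Multiplicative.toAdd h)
    have h4 := hmem (Multiplicative.toAdd g + Multiplicative.toAdd h)
    refine Iff.trans h3 (h4.trans ?_)
    constructor
    · rintro ⟨j, i, hi⟩
      exact ⟨j, i, (mul_gn_iff _ _ _ _).2 hi⟩
    · rintro ⟨j, i, hi⟩
      exact ⟨j, i, (mul_gn_iff _ _ _ _).1 hi⟩

theorem cube_odd (S : Finset V) (K : ℕ) (hKe : Even K)
    (h1 : K ^ 2 ≤ 2 * S.card) (h2 : 24 * S.card ≤ 2 ^ K)
    (hU : ∀ U : Submodule (ZMod 2) V, K * {s | s ∈ S ∧ s ∈ U}.ncard ≤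
      S.card * finrank (ZMod 2) U) (X : SimpleGraph V) (hX : ∀ u v, X.Adj u v ↔ u + v ∈ S)
    (hodd : Odd S.card) : Cov X (S.card / 2 + 1) := by
  have hc : 0 < S.card := hodd.pos
  have hK2 : 2 ≤ K := by
    by_contra hcon
    have : K = 0 ∨ K = 1 := by omega
    rcases this with rfl | rfl
    · simp at h2; omega
    · simp at h2; omega
  obtain ⟨t0, ht0⟩ := card_pos.1 hc
  have hcard := card_erase_add_one ht0
  have hev : Even (S.erase t0).card := by
    obtain ⟨k, hk⟩ := hodd
    exact ⟨k, by omega⟩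
  have ht00 : t0 ≠ 0 := by
    rintro rfl
    refine X.loopless.irrefl 0 ((hX 0 0).2 ?_)
    rwa [add_zero]
  obtain ⟨t, s, φ, hφ, hs, hsum, hmem⟩ := blocks S (S.erase t0) (erase_subset _ _) hev (by omega)
    K hKe hK2 h1 hU
  have e1 : S.card / 2 = ∑ j, s j := by omega
  rw [e1]
  refine cov_odd (Γ := Multiplicative V) s φ hφ ?_ (Multiplicative.ofAdd t0) ?_ ?_ X ?_
  · intro j _
    have h4 := pow_bound (hs j) h2
    omega
  · rw [← ofAdd_add, self_add, ofAdd_zero]
  · intro h
    exact ht00 (Multiplicative.ofAdd.injective h)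
  · intro g h
    have h3 := hX (Multiplicative.toAdd g) (Multiplicative.toAdd h)
    have h4 := hmem (Multiplicative.toAdd g + Multiplicative.toAdd h)
    have h5 : (Multiplicative.toAdd g + Multiplicative.toAdd h ∈ S) ↔
        (Multiplicative.toAdd g + Multiplicative.toAdd h = t0 ∨
          Multiplicative.toAdd g + Multiplicative.toAdd h ∈ S.erase t0) := by
      rw [mem_erase]
      constructor
      · intro hh
        by_cases h6 : Multiplicative.toAdd g + Multiplicative.toAdd h = t0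
        · exact Or.inl h6
        · exact Or.inr ⟨h6, hh⟩
      · rintro (hh | hh)
        · rw [hh]; exact ht0
        · exact hh.2
    refine Iff.trans h3 (h5.trans ?_)
    refine or_congr ?_ (h4.trans ?_)
    · constructor
      · intro hh
        apply Multiplicative.toAdd.injective
        rw [toAdd_mul, toAdd_ofAdd, ← hh, ← add_assoc, self_add, zero_add]
      · intro hh
        have h6 := congrArg Multiplicative.toAdd hh
        rw [toAdd_mul, toAdd_ofAdd] at h6
        rw [h6, ← add_assoc, self_add, zero_add]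
    · constructor
      · rintro ⟨j, i, hi⟩
        exact ⟨j, i, (mul_gn_iff _ _ _ _).2 hi⟩
      · rintro ⟨j, i, hi⟩
        exact ⟨j, i, (mul_gn_iff _ _ _ _).1 hi⟩

theorem cube_deg (S : Finset V) (X : SimpleGraph V) (hX : ∀ u v, X.Adj u v ↔ u + v ∈ S) (v : V) :
    (X.neighborSet v).ncard = S.card := by
  have h1 : X.neighborSet v = (fun s => v + s) '' (S : Set V) := by
    ext w
    constructor
    · intro hw
      refine ⟨v + w, (hX v w).1 hw, ?_⟩
      show v + (v + w) = w
      rw [← add_assoc, self_add, zero_add]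
    · rintro ⟨s, hs, rfl⟩
      refine (hX _ _).2 ?_
      rw [← add_assoc, self_add, zero_add]
      exact hs
  rw [h1, Set.ncard_image_of_injective _ (add_right_injective v), Set.ncard_coe_finset]

/-! ### Transitive sets -/

/-- the rank -/
noncomputable def rk (A : Finset V) : ℕ :=
  finrank (ZMod 2) (Submodule.span (ZMod 2) (A : Set V))

theorem rk_submod (A B : Finset V) : rk (A ∪ B) + rk (A ∩ B) ≤ rk A + rk B := by
  unfold rk
  set P := Submodule.span (ZMod 2) (A : Set V)
  set Q := Submodule.span (ZMod 2) (B : Set V)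
  have h1 : Submodule.span (ZMod 2) ((A ∪ B : Finset V) : Set V) = P ⊔ Q := by
    rw [Finset.coe_union, Submodule.span_union]
  have h2 : Submodule.span (ZMod 2) ((A ∩ B : Finset V) : Set V) ≤ P ⊓ Q := by
    rw [Finset.coe_inter]
    exact le_inf (Submodule.span_mono Set.inter_subset_left)
      (Submodule.span_mono Set.inter_subset_right)
  have h3 := Submodule.finrank_sup_add_finrank_inf_eq P Q
  have h4 := Submodule.finrank_mono h2
  rw [h1]
  omega

theorem rk_image (g : V ≃ₗ[ZMod 2] V) (A : Finset V) : rk (A.image g) = rk A := by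
  unfold rk
  have h1 : ((A.image g : Finset V) : Set V) = g '' (A : Set V) := by
    rw [coe_image]
  have h2 : Submodule.span (ZMod 2) (g '' (A : Set V)) =
      (Submodule.span (ZMod 2) (A : Set V)).map (g : V →ₗ[ZMod 2] V) := by
    rw [Submodule.map_span]
    rfl
  rw [h1, h2]
  exact LinearEquiv.finrank_map_eq g _

theorem rk_pos {A : Finset V} (h0 : (0 : V) ∉ A) (hne : A.Nonempty) : 0 < rk A := by
  obtain ⟨x, hx⟩ := hne
  have hx0 : x ≠ 0 := fun h => h0 (h ▸ hx)
  have h1 : (⟨x, Submodule.subset_span hx⟩ : Submodule.span (ZMod 2) (A : Set V)) ≠ 0 := by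
    intro h
    exact hx0 (congrArg Subtype.val h)
  unfold rk
  have : Nontrivial (Submodule.span (ZMod 2) (A : Set V)) := ⟨⟨_, _, h1⟩⟩
  exact finrank_pos

theorem rk_empty : rk (∅ : Finset V) = 0 := by
  unfold rk
  simp

/-- A set with a transitive group of linear automorphisms is nowhere denser than in its span. -/
theorem transitive_density (S : Finset V) (h0 : (0 : V) ∉ S)
    (hT : ∀ s ∈ S, ∀ t ∈ S, ∃ g : V ≃ₗ[ZMod 2] V, (∀ x ∈ S, g x ∈ S) ∧ g s = t) :
    ∀ A ⊆ S, A.card * rk S ≤ S.card * rk A := by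
  classical
  rcases S.eq_empty_or_nonempty with rfl | hne
  · intro A hA
    rw [subset_empty.1 hA]
  have hpos : ∀ A ⊆ S, A.Nonempty → 0 < rk A := fun A hA hn => rk_pos (fun h => h0 (hA h)) hn
  let Fam := S.powerset.filter (fun A => A.Nonempty)
  have hFam : ∀ A, A ∈ Fam ↔ A ⊆ S ∧ A.Nonempty := by
    intro A
    simp [Fam]
  have hSF : S ∈ Fam := (hFam S).2 ⟨Subset.refl _, hne⟩
  let μ : Finset V → ℚ := fun A => (A.card : ℚ) / rk A
  obtain ⟨A0, hA0, hmax⟩ := exists_max_image Fam μ ⟨S, hSF⟩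
  obtain ⟨A1, hA1, hmax1⟩ := exists_max_image (Fam.filter (fun A => μ A = μ A0))
    (fun A => A.card) ⟨A0, mem_filter.2 ⟨hA0, rfl⟩⟩
  obtain ⟨hA1F, hA1μ⟩ := mem_filter.1 hA1
  obtain ⟨hA1S, hA1n⟩ := (hFam A1).1 hA1F
  set lam := μ A0 with hlam
  have hall : ∀ A ⊆ S, (A.card : ℚ) ≤ lam * rk A := by
    intro A hA
    rcases A.eq_empty_or_nonempty with rfl | hn
    · rw [rk_empty]; simp
    · have h1 := hmax A ((hFam A).2 ⟨hA, hn⟩)
      have h2 : (0 : ℚ) < rk A := by exact_mod_cast hpos A hA hn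
      have h3 : (A.card : ℚ) / rk A ≤ lam := h1
      rwa [div_le_iff₀ h2] at h3
  have hlam0 : 0 ≤ lam := by
    rw [hlam]
    positivity
  have hA1e : (A1.card : ℚ) = lam * rk A1 := by
    have h2 : (0 : ℚ) < rk A1 := by exact_mod_cast hpos A1 hA1S hA1n
    have h3 : (A1.card : ℚ) / rk A1 = lam := hA1μ
    rwa [div_eq_iff h2.ne'] at h3
  have hinv : ∀ g : V ≃ₗ[ZMod 2] V, (∀ x ∈ S, g x ∈ S) → A1.image g ⊆ A1 := by
    intro g hg
    have hBS : A1.image g ⊆ S := by
      intro y hy
      obtain ⟨x, hx, rfl⟩ := mem_image.1 hy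
      exact hg x (hA1S hx)
    have hBc : (A1.image g).card = A1.card := card_image_of_injective _ g.injective
    have hBr : rk (A1.image g) = rk A1 := rk_image g A1
    have hUS : A1 ∪ A1.image g ⊆ S := union_subset hA1S hBS
    have h1 := rk_submod A1 (A1.image g)
    have h2 := card_union_add_card_inter A1 (A1.image g)
    have h3 := hall (A1 ∩ A1.image g) (inter_subset_left.trans hA1S)
    have h4 := hall (A1 ∪ A1.image g) hUS
    rw [hBr] at h1
    rw [hBc] at h2
    have h1' : ((rk (A1 ∪ A1.image g) : ℕ) : ℚ) + rk (A1 ∩ A1.image g) ≤ rk A1 + rk A1 := by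
      exact_mod_cast h1
    have h2' : (((A1 ∪ A1.image g).card : ℕ) : ℚ) + (A1 ∩ A1.image g).card =
        A1.card + A1.card := by exact_mod_cast h2
    have h5 := mul_le_mul_of_nonneg_left h1' hlam0
    have h6 : (((A1 ∪ A1.image g).card : ℕ) : ℚ) = lam * rk (A1 ∪ A1.image g) := by
      apply le_antisymm h4
      linarith
    have hUn : (A1 ∪ A1.image g).Nonempty := hA1n.mono subset_union_left
    have h7 : μ (A1 ∪ A1.image g) = lam := by
      have h8 : (0 : ℚ) < rk (A1 ∪ A1.image g) := by exact_mod_cast hpos _ hUS hUn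
      show (((A1 ∪ A1.image g).card : ℕ) : ℚ) / rk (A1 ∪ A1.image g) = lam
      rw [div_eq_iff h8.ne']
      exact h6
    have h8 := hmax1 (A1 ∪ A1.image g) (mem_filter.2 ⟨(hFam _).2 ⟨hUS, hUn⟩, h7⟩)
    have h9 : A1 = A1 ∪ A1.image g := eq_of_subset_of_card_le subset_union_left h8
    intro y hy
    have h10 : y ∈ A1 ∪ A1.image g := mem_union_right _ hy
    rwa [← h9] at h10
  have hA1eq : A1 = S := by
    apply Subset.antisymm hA1S
    intro y hy
    obtain ⟨x, hx⟩ := hA1n
    obtain ⟨g, hg, rfl⟩ := hT x (hA1S hx) y hy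
    exact hinv g hg (mem_image_of_mem _ hx)
  subst hA1eq
  intro A hA
  have h1 := hall A hA
  have h2 : (0 : ℚ) ≤ rk A1 := by positivity
  have h3 : (A.card : ℚ) * rk A1 ≤ A1.card * rk A := by
    calc (A.card : ℚ) * rk A1 ≤ (lam * rk A) * rk A1 := mul_le_mul_of_nonneg_right h1 h2
      _ = (lam * rk A1) * rk A := by ring
      _ = _ := by rw [← hA1e]
  exact_mod_cast h3

theorem transitive_hU (S : Finset V) (h0 : (0 : V) ∉ S)
    (hT : ∀ s ∈ S, ∀ t ∈ S, ∃ g : V ≃ₗ[ZMod 2] V, (∀ x ∈ S, g x ∈ S) ∧ g s = t) (K : ℕ)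
    (hK : K ≤ rk S) (U : Submodule (ZMod 2) V) :
    K * {s | s ∈ S ∧ s ∈ U}.ncard ≤ S.card * finrank (ZMod 2) U := by
  classical
  let A := S.filter (fun x => x ∈ U)
  have h1 : {s | s ∈ S ∧ s ∈ U} = (A : Set V) := by
    ext x
    simp [A]
  rw [h1, Set.ncard_coe_finset]
  have h2 := transitive_density S h0 hT A (filter_subset _ _)
  have h3 : rk A ≤ finrank (ZMod 2) U := by
    apply Submodule.finrank_mono
    rw [Submodule.span_le]
    intro x hx
    exact (mem_filter.1 hx).2
  calc K * A.card ≤ rk S * A.card := Nat.mul_le_mul_right _ hK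
    _ = A.card * rk S := mul_comm _ _
    _ ≤ S.card * rk A := h2
    _ ≤ _ := Nat.mul_le_mul_left _ h3

end

end Pool.Agent.U390.CI
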