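import Pool.Agent.U390.CI.Cube

set_option autoImplicit false

/-!
# Invariant connection sets, and graphs on the cube given by a set of distances
-/

namespace Pool.Agent.U390.CI

open Finset Module

section
variable {V : Type} [AddCommGroup V] [Module (ZMod 2) V] [Finite V] [DecidableEq V]

/-- Sets invariant under a group of linear automorphisms all of whose orbits on the set have large
rank. -/
theorem invariant_hU (G : Subgroup (V ≃ₗ[ZMod 2] V)) (K : ℕ) (U : Submodule (ZMod 2) V) (n : ℕ) :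
    ∀ S : Finset V, S.card = n → (0 : V) ∉ S → (∀ g ∈ G, ∀ s ∈ S, g s ∈ S) →
      (∀ s ∈ S, K ≤ finrank (ZMod 2) (Submodule.span (ZMod 2) {t | ∃ g ∈ G, g s = t})) →
      K * {s | s ∈ S ∧ s ∈ U}.ncard ≤ S.card * finrank (ZMod 2) U := by
  classical
  induction n using Nat.strong_induction_on with
  | _ n ih =>
  intro S hn h0 hS hK
  rcases S.eq_empty_or_nonempty with rfl | ⟨s, hs⟩
  · simp
  let O : Finset V := S.filter (fun t => ∃ g ∈ G, g s = t)
  have hsO : s ∈ O := mem_filter.2 ⟨hs, 1, G.one_mem, rfl⟩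
  have hOS : O ⊆ S := filter_subset _ _
  have hOset : (O : Set V) = {t | ∃ g ∈ G, g s = t} := by
    ext t
    constructor
    · intro ht
      exact (mem_filter.1 ht).2
    · rintro ⟨g, hg, rfl⟩
      exact mem_filter.2 ⟨hS g hg s hs, g, hg, rfl⟩
  have hOG : ∀ g ∈ G, ∀ x ∈ O, g x ∈ O := by
    intro g hg x hx
    obtain ⟨hx1, g', hg', rfl⟩ := mem_filter.1 hx
    exact mem_filter.2 ⟨hS g hg _ hx1, g * g', G.mul_mem hg hg', rfl⟩
  have h1 : K * {x | x ∈ O ∧ x ∈ U}.ncard ≤ O.card * finrank (ZMod 2) U := by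
    refine transitive_hU O (fun h => h0 (hOS h)) ?_ K ?_ U
    · intro x hx y hy
      obtain ⟨_, g, hg, rfl⟩ := mem_filter.1 hx
      obtain ⟨_, g', hg', rfl⟩ := mem_filter.1 hy
      refine ⟨g' * g⁻¹, fun z hz => hOG _ (G.mul_mem hg' (G.inv_mem hg)) z hz, ?_⟩
      have : (g' * g⁻¹) (g s) = ((g' * g⁻¹) * g) s := rfl
      rw [this, inv_mul_cancel_right]
    · unfold rk
      rw [hOset]
      exact hK s hs
  have hSO : ∀ g ∈ G, ∀ x ∈ S \ O, g x ∈ S \ O := by
    intro g hg x hx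
    obtain ⟨hx1, hx2⟩ := mem_sdiff.1 hx
    refine mem_sdiff.2 ⟨hS g hg x hx1, fun h => hx2 ?_⟩
    have h2 := hOG g⁻¹ (G.inv_mem hg) _ h
    have h3 : g⁻¹ (g x) = x := by
      have : g⁻¹ (g x) = (g⁻¹ * g) x := rfl
      rw [this, inv_mul_cancel]
      rfl
    rwa [h3] at h2
  have hlt : (S \ O).card < n := by
    rw [← hn]
    exact card_lt_card ⟨sdiff_subset, fun h => (mem_sdiff.1 (h hs)).2 hsO⟩
  have h2 := ih _ hlt (S \ O) rfl (fun h => h0 (mem_sdiff.1 h).1) hSO
    (fun x hx => hK x (mem_sdiff.1 hx).1)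
  have h3 : {x | x ∈ S ∧ x ∈ U} = {x | x ∈ O ∧ x ∈ U} ∪ {x | x ∈ S \ O ∧ x ∈ U} := by
    ext x
    constructor
    · rintro ⟨hx1, hx2⟩
      by_cases hx : x ∈ O
      · exact Or.inl ⟨hx, hx2⟩
      · exact Or.inr ⟨mem_sdiff.2 ⟨hx1, hx⟩, hx2⟩
    · rintro (⟨hx1, hx2⟩ | ⟨hx1, hx2⟩)
      · exact ⟨hOS hx1, hx2⟩
      · exact ⟨(mem_sdiff.1 hx1).1, hx2⟩
  have h4 : {x | x ∈ S ∧ x ∈ U}.ncard ≤ {x | x ∈ O ∧ x ∈ U}.ncard +
      {x | x ∈ S \ O ∧ x ∈ U}.ncard := by
    rw [h3]; exact Set.ncard_union_le _ _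
  have h5 := card_sdiff_add_card_eq_card hOS
  calc K * {x | x ∈ S ∧ x ∈ U}.ncard ≤ K * ({x | x ∈ O ∧ x ∈ U}.ncard +
      {x | x ∈ S \ O ∧ x ∈ U}.ncard) := Nat.mul_le_mul_left _ h4
    _ = K * {x | x ∈ O ∧ x ∈ U}.ncard + K * {x | x ∈ S \ O ∧ x ∈ U}.ncard := mul_add _ _ _
    _ ≤ O.card * finrank (ZMod 2) U + (S \ O).card * finrank (ZMod 2) U := add_le_add h1 h2
    _ = ((S \ O).card + O.card) * finrank (ZMod 2) U := by ring
    _ = S.card * finrank (ZMod 2) U := by rw [h5]

end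

/-! ### The cube -/

/-- indicator vectors -/
def ind {n : ℕ} (A : Finset (Fin n)) : Fin n → ZMod 2 := fun i => if i ∈ A then 1 else 0

theorem ind_inj {n : ℕ} : Function.Injective (ind (n := n)) := by
  intro A B h
  ext i
  have h1 := congrFun h i
  unfold ind at h1
  by_cases hA : i ∈ A <;> by_cases hB : i ∈ B <;> simp_all

theorem ind_norm {n : ℕ} (A : Finset (Fin n)) : hammingNorm (ind A) = A.card := by
  unfold hammingNorm ind
  congr 1
  ext i
  by_cases h : i ∈ A <;> simp [h]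

theorem exists_ind {n : ℕ} (x : Fin n → ZMod 2) : ∃ A, ind A = x := by
  refine ⟨univ.filter (fun i => x i = 1), ?_⟩
  funext i
  unfold ind
  have h : x i = 0 ∨ x i = 1 := by
    generalize x i = w
    revert w
    decide
  rcases h with h | h
  · simp [h]
  · simp [h]

/-- The vectors whose weight lies in `D`. -/
def wts (n : ℕ) (D : Finset ℕ) : Finset (Fin n → ZMod 2) :=
  univ.filter (fun x => hammingNorm x ∈ D)

theorem wts_card (n : ℕ) (D : Finset ℕ) : (wts n D).card = ∑ j ∈ D, n.choose j := by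
  have h1 : (wts n D).card = ∑ j ∈ D, ((wts n D).filter (fun x => hammingNorm x = j)).card :=
    card_eq_sum_card_fiberwise (fun x hx => (mem_filter.1 hx).2)
  rw [h1]
  refine sum_congr rfl fun j hj => ?_
  have h2 : (wts n D).filter (fun x => hammingNorm x = j) =
      (powersetCard j (univ : Finset (Fin n))).image ind := by
    ext x
    constructor
    · intro hx
      obtain ⟨A, rfl⟩ := exists_ind x
      have h3 := (mem_filter.1 hx).2
      rw [ind_norm] at h3
      exact mem_image_of_mem _ (mem_powersetCard.2 ⟨subset_univ _, h3⟩)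
    · intro hx
      obtain ⟨A, hA, rfl⟩ := mem_image.1 hx
      have h3 := (mem_powersetCard.1 hA).2
      refine mem_filter.2 ⟨mem_filter.2 ⟨mem_univ _, ?_⟩, ?_⟩
      · rw [ind_norm, h3]; exact hj
      · rw [ind_norm, h3]
  rw [h2, card_image_of_injective _ ind_inj, card_powersetCard, card_univ, Fintype.card_fin]

/-- The coordinate permutations. -/
def permG (n : ℕ) : Subgroup ((Fin n → ZMod 2) ≃ₗ[ZMod 2] (Fin n → ZMod 2)) where
  carrier := {g | ∃ σ : Equiv.Perm (Fin n), ∀ x i, g x i = x (σ i)}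
  mul_mem' := by
    rintro g h ⟨σ, hσ⟩ ⟨τ, hτ⟩
    refine ⟨τ * σ |>.trans (Equiv.refl _), fun x i => ?_⟩
    show g (h x) i = x (τ (σ i))
    rw [hσ, hτ]
  one_mem' := ⟨1, fun x i => rfl⟩
  inv_mem' := by
    rintro g ⟨σ, hσ⟩
    refine ⟨σ⁻¹, fun x i => ?_⟩
    have h1 : g (g⁻¹ x) = x := by
      have : g (g⁻¹ x) = (g * g⁻¹) x := rfl
      rw [this, mul_inv_cancel]
      rfl
    have h2 := hσ (g⁻¹ x) (σ⁻¹ i)
    have h3 : σ (σ⁻¹ i) = i := σ.apply_symm_apply i
    rw [h1, h3] at h2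
    exact h2.symm

theorem permG_norm {n : ℕ} {g : (Fin n → ZMod 2) ≃ₗ[ZMod 2] (Fin n → ZMod 2)} (hg : g ∈ permG n)
    (x : Fin n → ZMod 2) : hammingNorm (g x) = hammingNorm x := by
  obtain ⟨σ, hσ⟩ := hg
  unfold hammingNorm
  refine card_bij (fun i _ => σ i) ?_ ?_ ?_
  · intro i hi
    obtain ⟨_, h⟩ := mem_filter.1 hi
    rw [hσ] at h
    exact mem_filter.2 ⟨mem_univ _, h⟩
  · intro i _ j _ h
    exact σ.injective h
  · intro i hi
    obtain ⟨_, h⟩ := mem_filter.1 hi
    have h3 : σ (σ⁻¹ i) = i := σ.apply_symm_apply i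
    refine ⟨σ⁻¹ i, mem_filter.2 ⟨mem_univ _, ?_⟩, h3⟩
    rw [hσ, h3]
    exact h

/-- Two indicator vectors of sets with the same number of elements are in one orbit. -/
theorem permG_trans {n : ℕ} (A B : Finset (Fin n)) (h : A.card = B.card) :
    ∃ g ∈ permG n, g (ind A) = ind B := by
  have hc : Fintype.card {i // i ∈ B} = Fintype.card {i // i ∈ A} := by
    rw [Fintype.card_coe, Fintype.card_coe, h]
  let e : {i // i ∈ B} ≃ {i // i ∈ A} := Fintype.equivOfCardEq hc
  let σ : Equiv.Perm (Fin n) := e.extendSubtype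
  refine ⟨LinearEquiv.funCongrLeft (ZMod 2) (ZMod 2) σ, ⟨σ, fun x i => rfl⟩, ?_⟩
  funext i
  show ind A (σ i) = ind B i
  unfold ind
  by_cases hi : i ∈ B
  · rw [if_pos hi, if_pos]
    exact e.extendSubtype_mem i hi
  · rw [if_neg hi, if_neg]
    exact e.extendSubtype_not_mem i hi

theorem orbit_rank {n : ℕ} (A : Finset (Fin n)) (h1 : 1 ≤ A.card) (h2 : A.card + 1 ≤ n) :
    n ≤ finrank (ZMod 2) (Submodule.span (ZMod 2) {t | ∃ g ∈ permG n, g (ind A) = t}) + 1 := by
  classical
  set W := Submodule.span (ZMod 2) {t | ∃ g ∈ permG n, g (ind A) = t} with hW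
  have hmem : ∀ B : Finset (Fin n), B.card = A.card → ind B ∈ W := by
    intro B hB
    obtain ⟨g, hg, hgB⟩ := permG_trans A B hB.symm
    exact Submodule.subset_span ⟨g, hg, hgB⟩
  have hpair : ∀ a b : Fin n, a ≠ b →
      (Pi.single a 1 : Fin n → ZMod 2) + Pi.single b 1 ∈ W := by
    intro a b hab
    obtain ⟨C, hC1, hC2⟩ : ∃ C ⊆ (univ.erase a).erase b, C.card = A.card - 1 := by
      apply exists_subset_card_eq
      rw [card_erase_of_mem (mem_erase.2 ⟨hab.symm, mem_univ _⟩), card_erase_of_mem (mem_univ _),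
        card_univ, Fintype.card_fin]
      omega
    have haC : a ∉ C := fun h => by
      have := hC1 h
      simp at this
    have hbC : b ∉ C := fun h => by
      have := hC1 h
      simp at this
    have h3 := W.add_mem (hmem (insert a C) (by rw [card_insert_of_notMem haC]; omega))
      (hmem (insert b C) (by rw [card_insert_of_notMem hbC]; omega))
    have h4 : ind (insert a C) + ind (insert b C) =
        (Pi.single a 1 : Fin n → ZMod 2) + Pi.single b 1 := by
      funext i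
      rw [Pi.add_apply, Pi.add_apply]
      unfold ind
      by_cases hia : i = a
      · subst hia
        rw [if_pos (mem_insert_self _ _), Pi.single_eq_same, Pi.single_eq_of_ne hab,
          if_neg (by simp [hab, haC])]
      · by_cases hib : i = b
        · subst hib
          rw [if_pos (mem_insert_self _ _), Pi.single_eq_same, Pi.single_eq_of_ne hia,
            if_neg (by simp [hia, hbC])]
        · rw [Pi.single_eq_of_ne hia, Pi.single_eq_of_ne hib]
          by_cases hiC : i ∈ C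
          · rw [if_pos (mem_insert_of_mem hiC), if_pos (mem_insert_of_mem hiC)]
            decide
          · rw [if_neg (by simp [hia, hiC]), if_neg (by simp [hib, hiC])]
    rwa [h4] at h3
  have hn0 : 0 < n := by omega
  let a : Fin n := ⟨0, hn0⟩
  have htop : (⊤ : Submodule (ZMod 2) (Fin n → ZMod 2)) ≤
      W ⊔ Submodule.span (ZMod 2) {(Pi.single a 1 : Fin n → ZMod 2)} := by
    intro x _
    have h3 : ∀ b : Fin n, (Pi.single b 1 : Fin n → ZMod 2) ∈
        W ⊔ Submodule.span (ZMod 2) {(Pi.single a 1 : Fin n → ZMod 2)} := by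
      intro b
      have h5 : (Pi.single a 1 : Fin n → ZMod 2) ∈
          W ⊔ Submodule.span (ZMod 2) {(Pi.single a 1 : Fin n → ZMod 2)} :=
        Submodule.mem_sup_right (Submodule.mem_span_singleton_self _)
      by_cases hab : a = b
      · rw [← hab]; exact h5
      · have h6 := Submodule.add_mem _ h5 (Submodule.mem_sup_left (hpair a b hab))
        rwa [← add_assoc, self_add, zero_add] at h6
    rw [← Finset.univ_sum_single x]
    refine Submodule.sum_mem _ fun b _ => ?_
    have h4 : (Pi.single b (x b) : Fin n → ZMod 2) = x b • Pi.single b 1 := by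
      rw [← Pi.single_smul, smul_eq_mul, mul_one]
    rw [h4]
    exact Submodule.smul_mem _ _ (h3 b)
  have h3 := Submodule.finrank_mono htop
  have h4 := Submodule.finrank_add_le_finrank_add_finrank W
    (Submodule.span (ZMod 2) {(Pi.single a 1 : Fin n → ZMod 2)})
  have h5 : finrank (ZMod 2) (Submodule.span (ZMod 2) ({(Pi.single a 1 : Fin n → ZMod 2)} :
      Set (Fin n → ZMod 2))) ≤ 1 := by
    have := finrank_span_finset_le_card (R := ZMod 2)
      ({(Pi.single a 1 : Fin n → ZMod 2)} : Finset (Fin n → ZMod 2))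
    rw [card_singleton, coe_singleton] at this
    exact this
  rw [finrank_top, finrank_pi, Fintype.card_fin] at h3
  omega

/-! ### Numbers -/

theorem le_choose : ∀ n j : ℕ, 1 ≤ j → j + 1 ≤ n → n ≤ n.choose j := by
  intro n
  induction n with
  | zero => intro j _ h; omega
  | succ n ih =>
    intro j h1 h2
    obtain ⟨i, rfl⟩ : ∃ i, j = i + 1 := ⟨j - 1, by omega⟩
    rw [Nat.choose_succ_succ']
    rcases Nat.eq_zero_or_pos i with rfl | hi
    · simp
    · have h3 := ih i hi (by omega)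
      have h4 : 0 < n.choose (i + 1) := Nat.choose_pos (by omega)
      omega

theorem central (m : ℕ) : m.centralBinom ^ 2 * (3 * m + 1) ≤ 16 ^ m := by
  induction m with
  | zero => simp
  | succ m ih =>
    have h1 := Nat.succ_mul_centralBinom_succ m
    have h2 : (m + 1) ^ 2 * ((m + 1).centralBinom ^ 2 * (3 * (m + 1) + 1)) ≤
        (m + 1) ^ 2 * 16 ^ (m + 1) := by
      calc (m + 1) ^ 2 * ((m + 1).centralBinom ^ 2 * (3 * (m + 1) + 1))
          = ((m + 1) * (m + 1).centralBinom) ^ 2 * (3 * m + 4) := by ring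
        _ = (2 * (2 * m + 1) * m.centralBinom) ^ 2 * (3 * m + 4) := by rw [h1]
        _ = m.centralBinom ^ 2 * (4 * (2 * m + 1) ^ 2 * (3 * m + 4)) := by ring
        _ ≤ m.centralBinom ^ 2 * (16 * (m + 1) ^ 2 * (3 * m + 1)) := by
            refine Nat.mul_le_mul_left _ ?_
            nlinarith
        _ = (m.centralBinom ^ 2 * (3 * m + 1)) * (16 * (m + 1) ^ 2) := by ring
        _ ≤ 16 ^ m * (16 * (m + 1) ^ 2) := Nat.mul_le_mul_right _ ih
        _ = _ := by ring
    exact Nat.le_of_mul_le_mul_left h2 (by positivity)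

theorem central' (m : ℕ) (hm : 3072 ≤ m) : 96 * m.centralBinom ≤ 4 ^ m := by
  have h1 := central m
  have h2 : (96 * m.centralBinom) ^ 2 ≤ (4 ^ m) ^ 2 := by
    calc (96 * m.centralBinom) ^ 2 = m.centralBinom ^ 2 * 9216 := by ring
      _ ≤ m.centralBinom ^ 2 * (3 * m + 1) := Nat.mul_le_mul_left _ (by omega)
      _ ≤ 16 ^ m := h1
      _ = (4 ^ m) ^ 2 := by rw [← pow_mul, mul_comm, pow_mul]; norm_num
  exact (Nat.pow_le_pow_iff_left (by norm_num)).1 h2

theorem choose_small (n j : ℕ) (hn : 6144 ≤ n) : 96 * n.choose j ≤ 2 ^ n := by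
  obtain ⟨m, hm⟩ : ∃ m, n = 2 * m ∨ n = 2 * m + 1 := ⟨n / 2, by omega⟩
  rcases hm with rfl | rfl
  · have h1 := central' m (by omega)
    have h2 := Nat.choose_le_centralBinom j m
    rw [pow_mul]
    norm_num
    omega
  · have h1 := central' (m + 1) (by omega)
    have h2 := Nat.choose_le_middle j (2 * m + 1)
    have h3 : (2 * m + 1) / 2 = m := by omega
    rw [h3] at h2
    have h4 : (m + 1).centralBinom = 2 * (2 * m + 1).choose m := by
      unfold Nat.centralBinom
      have e : 2 * (m + 1) = (2 * m + 1) + 1 := by ring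
      rw [e, Nat.choose_succ_succ, Nat.choose_symm_half]
      ring
    rw [h4, pow_succ] at h1
    have h5 : 2 ^ (2 * m + 1) = 2 * 4 ^ m := by
      rw [pow_succ, pow_mul]
      norm_num
      ring
    rw [h5]
    omega

theorem quad (k : ℕ) (hk : 7 ≤ k) : 192 * k ^ 2 ≤ 4 ^ k := by
  induction k, hk using Nat.le_induction with
  | base => norm_num
  | succ k hk ih =>
    rw [pow_succ 4 k]
    nlinarith

/-- The choice of `K`. -/
theorem exists_K (n c : ℕ) (h1 : 72 ≤ c) (h2 : 96 * c ≤ 2 ^ n) :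
    ∃ K, Even K ∧ K + 1 ≤ n ∧ K ^ 2 ≤ 2 * c ∧ 24 * c ≤ 2 ^ K := by
  have hex : ∃ k, 24 * c ≤ 4 ^ k := ⟨24 * c, (Nat.lt_pow_self (by norm_num)).le⟩
  classical
  obtain ⟨k, hk, hmin⟩ : ∃ k, 24 * c ≤ 4 ^ k ∧ ∀ i < k, ¬ 24 * c ≤ 4 ^ i :=
    ⟨Nat.find hex, Nat.find_spec hex, fun i h => Nat.find_min hex h⟩
  have hk0 : 0 < k := by
    rcases Nat.eq_zero_or_pos k with rfl | h
    · simp at hk; omega
    · exact h
  obtain ⟨i, rfl⟩ : ∃ i, k = i + 1 := ⟨k - 1, by omega⟩
  have h3 := hmin i (by omega)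
  push Not at h3
  refine ⟨2 * (i + 1), ⟨i + 1, by ring⟩, ?_, ?_, ?_⟩
  · by_contra hcon
    have h4 : n ≤ 2 * (i + 1) := by omega
    have h5 : 2 ^ n ≤ 2 ^ (2 * (i + 1)) := Nat.pow_le_pow_right (by norm_num) h4
    have h6 : 2 ^ (2 * (i + 1)) = 4 * 4 ^ i := by
      rw [pow_mul, pow_succ]
      norm_num
      ring
    omega
  · by_contra hcon
    push Not at hcon
    have h4 : 4 ^ (i + 1) < 192 * (i + 1) ^ 2 := by
      rw [pow_succ]
      nlinarith
    have h5 : i + 1 < 7 := by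
      by_contra h
      have := quad (i + 1) (by omega)
      omega
    have h6 : (2 * (i + 1)) ^ 2 ≤ 12 ^ 2 := Nat.pow_le_pow_left (by omega) 2
    omega
  · rw [pow_mul]
    norm_num
    exact hk

end Pool.Agent.U390.CI
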