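import Pool.Agent.R31.Partition
import Pool.Agent.Helper662.Rado
import Pool.Agent.U390.CI.Block

set_option autoImplicit false

/-!
# Partitions of sets of vectors over `ℤ/2` into independent sets of prescribed sizes
-/

namespace Pool.Agent.U390.CI

open Finset Module Pool.Agent.R31.Partition Pool.Agent.Helper662

variable {V : Type} [AddCommGroup V] [Module (ZMod 2) V] [Finite V] [DecidableEq V]

theorem isRank_trk (d : ℕ) : IsRank (trk (W := V) d) where
  mono _ _ h := trk_mono d h
  submod := trk_submod d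
  unit A a := by
    unfold trk
    have h1 : Submodule.span (ZMod 2) ((insert a A : Finset V) : Set V) =
        Submodule.span (ZMod 2) {a} ⊔ Submodule.span (ZMod 2) (A : Set V) := by
      rw [coe_insert, Submodule.span_insert]
    have h2 := Submodule.finrank_add_le_finrank_add_finrank (Submodule.span (ZMod 2) {a})
      (Submodule.span (ZMod 2) (A : Set V))
    have h3 : finrank (ZMod 2) (Submodule.span (ZMod 2) ({a} : Set V)) ≤ 1 := by
      have := finrank_span_finset_le_card (R := ZMod 2) ({a} : Finset V)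
      rw [card_singleton, coe_singleton] at this
      exact this
    rw [h1]
    omega

theorem parts (T : Finset V) (t : ℕ) (ht : 0 < t) (a : Fin t → ℕ) (hsum : ∑ i, a i = T.card)
    (h : ∀ A ⊆ T, A.card ≤ ∑ i, trk (a i) A) :
    ∃ f : V → Fin t, ∀ i, (T.filter (fun x => f x = i)).card = a i ∧
      finrank (ZMod 2) (Submodule.span (ZMod 2) ((T.filter (fun x => f x = i) : Finset V) : Set V))
        = a i := by
  have : Nonempty (Fin t) := ⟨⟨0, ht⟩⟩
  obtain ⟨f, hf⟩ := partition T.card T (fun i => trk (a i)) (fun i => isRank_trk _) rfl (by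
    intro A hA
    have h1 : ∑ i : Fin t, trk (a i) (∅ : Finset V) = 0 := sum_eq_zero fun i _ => trk_empty _
    rw [h1, zero_add]
    exact h A hA)
  have h1 : ∀ i, (T.filter (fun x => f x = i)).card ≤ a i := by
    intro i
    have h2 := hf i
    rw [trk_empty, zero_add] at h2
    rw [← h2]
    unfold trk
    exact min_le_left _ _
  have h3 : ∑ i, (T.filter (fun x => f x = i)).card = ∑ i, a i := by
    rw [hsum]
    exact (card_eq_sum_card_fiberwise (f := f) (t := univ) (fun x _ => by simp)).symm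
  have h4 : ∀ i, (T.filter (fun x => f x = i)).card = a i := fun i =>
    (sum_eq_sum_iff_of_le (fun i _ => h1 i)).1 h3 i (mem_univ i)
  refine ⟨f, fun i => ⟨h4 i, ?_⟩⟩
  have h2 := hf i
  rw [trk_empty, zero_add, h4 i] at h2
  unfold trk at h2
  have h5 := finrank_span_finset_le_card (R := ZMod 2) (T.filter (fun x => f x = i))
  rw [h4 i] at h5
  unfold Set.finrank at h5
  omega

/-- A block from an independent set. -/
theorem mk_block (B : Finset V) (n : ℕ) (hc : B.card = n)
    (hr : finrank (ZMod 2) (Submodule.span (ZMod 2) (B : Set V)) = n) :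
    ∃ φ : Multiplicative (Fin n → ZMod 2) →* Multiplicative V, Function.Injective φ ∧
      ∀ v : V, v ∈ B ↔ ∃ i, gn φ i = Multiplicative.ofAdd v := by
  subst hc
  let b : Fin B.card → V := fun i => (B.equivFin.symm i).1
  have hrange : Set.range b = (B : Set V) := by
    ext v
    constructor
    · rintro ⟨i, rfl⟩
      exact (B.equivFin.symm i).2
    · intro hv
      exact ⟨B.equivFin ⟨v, hv⟩, by simp [b]⟩
  have hli : LinearIndependent (ZMod 2) b := by
    rw [linearIndependent_iff_card_eq_finrank_span, Fintype.card_fin, hrange]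
    exact hr.symm
  have hinj : Function.Injective (Fintype.linearCombination (ZMod 2) b) :=
    linearIndependent_iff_injective_fintypeLinearCombination.1 hli
  let φ : Multiplicative (Fin B.card → ZMod 2) →* Multiplicative V :=
    AddMonoidHom.toMultiplicative (Fintype.linearCombination (ZMod 2) b).toAddMonoidHom
  have hφ : ∀ i, gn φ i = Multiplicative.ofAdd (b i) := by
    intro i
    show Multiplicative.ofAdd (Fintype.linearCombination (ZMod 2) b (Pi.single i 1)) = _
    rw [Fintype.linearCombination_apply_single, one_smul]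
  refine ⟨φ, hinj, fun v => ?_⟩
  constructor
  · intro hv
    have h1 : v ∈ Set.range b := by rw [hrange]; exact hv
    obtain ⟨i, rfl⟩ := h1
    exact ⟨i, hφ i⟩
  · rintro ⟨i, hi⟩
    rw [hφ i] at hi
    have h1 : b i = v := Multiplicative.ofAdd.injective hi
    rw [← h1]
    exact (B.equivFin.symm i).2

theorem arith {r r' K t n : ℕ} (hKe : Even K) (hre : Even r') (hK : 2 ≤ K) (h1 : r' ≤ r)
    (h2 : r ≤ r' + 1) (h3 : r ≤ K * t) (h4 : K * n ≤ r * (K - 1)) :
    2 * n ≤ r' + t * (K - 2) := by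
  obtain ⟨k, rfl⟩ : ∃ k, K = 2 * k := by
    obtain ⟨k, hk⟩ := hKe
    exact ⟨k, by omega⟩
  obtain ⟨ρ, rfl⟩ : ∃ k, r' = 2 * k := by
    obtain ⟨k, hk⟩ := hre
    exact ⟨k, by omega⟩
  obtain ⟨j, rfl⟩ : ∃ j, k = j + 1 := ⟨k - 1, by omega⟩
  have e1 : 2 * (j + 1) - 1 = 2 * j + 1 := by omega
  have e2 : 2 * (j + 1) - 2 = 2 * j := by omega
  rw [e1] at h4
  rw [e2]
  have e3 : t * (2 * j) = 2 * (t * j) := by ring
  rw [e3]
  by_contra hcon
  push Not at hcon
  have h5 : ρ + t * j + 1 ≤ n := by omega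
  have h6 : (ρ + t * j + 1) * (j + 1) ≤ n * (j + 1) := Nat.mul_le_mul_right _ h5
  have h7 : 2 * (n * (j + 1)) ≤ r * (2 * j + 1) := by
    calc 2 * (n * (j + 1)) = 2 * (j + 1) * n := by ring
      _ ≤ _ := h4
  have h8 : ρ + (r - 2 * ρ) ≤ (j + 1) * t := by
    have h9 : 2 * (j + 1) * t = 2 * ((j + 1) * t) := by ring
    rw [h9] at h3
    omega
  have h10 : (ρ + (r - 2 * ρ)) * j ≤ (j + 1) * t * j := Nat.mul_le_mul_right _ h8
  rcases Nat.lt_or_ge (2 * ρ) r with h11 | h11
  · have h12 : r = 2 * ρ + 1 := by omega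
    subst h12
    have e4 : 2 * ρ + 1 - 2 * ρ = 1 := by omega
    rw [e4] at h10
    nlinarith [h6, h7, h10]
  · have h12 : r = 2 * ρ := by omega
    subst h12
    have e4 : 2 * ρ - 2 * ρ = 0 := by omega
    rw [e4] at h10
    nlinarith [h6, h7, h10]

theorem blocks (S T : Finset V) (hT : T ⊆ S) (hev : Even T.card) (hr : S.card ≤ T.card + 1)
    (K : ℕ) (hKe : Even K) (hK : 2 ≤ K) (hK2 : K ^ 2 ≤ 2 * S.card)
    (hU : ∀ U : Submodule (ZMod 2) V, K * {s | s ∈ S ∧ s ∈ U}.ncard ≤
      S.card * finrank (ZMod 2) U) :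
    ∃ (t : ℕ) (s : Fin t → ℕ)
      (φ : ∀ j, Multiplicative (Fin (2 * s j) → ZMod 2) →* Multiplicative V),
      (∀ j, Function.Injective (φ j)) ∧ (∀ j, K ≤ 2 * s j + 2) ∧ 2 * ∑ j, s j = T.card ∧
      ∀ v : V, v ∈ T ↔ ∃ j i, gn (φ j) i = Multiplicative.ofAdd v := by
  have hTS := card_le_card hT
  have hr0 : 2 ≤ S.card := by nlinarith
  obtain ⟨k, hk⟩ : ∃ k, K = 2 * k := by
    obtain ⟨k, hk⟩ := hKe
    exact ⟨k, by omega⟩
  obtain ⟨ρ, hρ⟩ : ∃ k, T.card = 2 * k := by
    obtain ⟨k, hk⟩ := hev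
    exact ⟨k, by omega⟩
  obtain ⟨t, ht1, ht2⟩ : ∃ t, S.card ≤ K * t ∧ K * t ≤ S.card + (K - 1) := by
    refine ⟨(S.card + (K - 1)) / K, ?_, Nat.mul_div_le _ _⟩
    have h1 := Nat.lt_mul_div_succ (S.card + (K - 1)) (show 0 < K by omega)
    have h2 : K * ((S.card + (K - 1)) / K + 1) = K * ((S.card + (K - 1)) / K) + K := by ring
    omega
  have ht0 : 0 < t := by
    rcases Nat.eq_zero_or_pos t with rfl | h
    · omega
    · exact h
  -- `(K - 2) t ≤ |T|`
  have h1 : (K - 2) * t ≤ T.card := by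
    obtain ⟨c, rfl⟩ : ∃ c, K = c + 2 := ⟨K - 2, by omega⟩
    have e1 : c + 2 - 2 = c := by omega
    have e2 : c + 2 - 1 = c + 1 := by omega
    rw [e1]
    rw [e2] at ht2
    by_contra hcon
    push Not at hcon
    have h3 : (T.card + 1) * (c + 2) ≤ (c * t) * (c + 2) := Nat.mul_le_mul_right _ hcon
    have h4 : c * ((c + 2) * t) ≤ c * (S.card + (c + 1)) := Nat.mul_le_mul_left _ ht2
    nlinarith
  obtain ⟨m, hm⟩ : ∃ m, (K - 2) * t + 2 * m = T.card := by
    have e1 : (K - 2) * t = 2 * ((k - 1) * t) := by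
      have : K - 2 = 2 * (k - 1) := by omega
      rw [this]; ring
    rw [e1] at h1 ⊢
    exact ⟨ρ - (k - 1) * t, by omega⟩
  have hmt : m ≤ t := by
    have e1 : K * t = (K - 2) * t + 2 * t := by
      obtain ⟨c, rfl⟩ : ∃ c, K = c + 2 := ⟨K - 2, by omega⟩
      have e1 : c + 2 - 2 = c := by omega
      rw [e1]; ring
    omega
  let s : Fin t → ℕ := fun j => if (j : ℕ) < m then k else k - 1
  have hcount : ∀ x y : ℕ, ∑ j : Fin t, (if (j : ℕ) < m then x else y) = m * x + (t - m) * y := by
    intro x y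
    rw [Fin.sum_univ_eq_sum_range (fun j => if j < m then x else y) t,
      ← Finset.sum_range_add_sum_Ico _ hmt]
    congr 1
    · rw [sum_congr rfl fun j hj => if_pos (mem_range.1 hj), sum_const, card_range, smul_eq_mul]
    · rw [sum_congr rfl fun j hj => if_neg (not_lt.2 (mem_Ico.1 hj).1), sum_const, Nat.card_Ico,
        smul_eq_mul]
  have hs : ∑ j, 2 * s j = T.card := by
    have e1 : ∀ j, 2 * s j = if (j : ℕ) < m then 2 * k else 2 * (k - 1) := by
      intro j
      show 2 * (if (j : ℕ) < m then k else k - 1) = _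
      split_ifs <;> rfl
    rw [sum_congr rfl fun j _ => e1 j, hcount, ← hm]
    obtain ⟨c, rfl⟩ : ∃ c, k = c + 1 := ⟨k - 1, by omega⟩
    obtain ⟨u, rfl⟩ : ∃ u, t = m + u := ⟨t - m, by omega⟩
    have e2 : m + u - m = u := by omega
    have e3 : c + 1 - 1 = c := by omega
    have e4 : K - 2 = 2 * c := by omega
    rw [e2, e3, e4]
    ring
  obtain ⟨f, hf⟩ := parts T t ht0 (fun j => 2 * s j) hs (by
    intro A hA
    set d := finrank (ZMod 2) (Submodule.span (ZMod 2) (A : Set V)) with hd
    have hAd : K * A.card ≤ S.card * d := by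
      refine le_trans (Nat.mul_le_mul_left _ ?_) (hU (Submodule.span (ZMod 2) (A : Set V)))
      rw [← Set.ncard_coe_finset]
      exact Set.ncard_le_ncard (fun x hx => ⟨hT (hA hx), Submodule.subset_span hx⟩)
        (Set.toFinite _)
    have hAT := card_le_card hA
    have e1 : ∀ j, trk (2 * s j) A = if (j : ℕ) < m then min (2 * k) d else
        min (2 * (k - 1)) d := by
      intro j
      unfold trk
      show min (2 * (if (j : ℕ) < m then k else k - 1)) _ = _
      split_ifs <;> rfl
    rw [sum_congr rfl fun j _ => e1 j, hcount]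
    have e5 : m * min (2 * k) d + (t - m) * min (2 * (k - 1)) d =
        (if d ≤ K - 2 then t * d else if d = K - 1 then t * (K - 2) + m else T.card) := by
      have hk2 : 2 * (k - 1) = K - 2 := by omega
      split_ifs with hd1 hd2
      · rw [min_eq_right (by omega), min_eq_right (by omega), ← add_mul,
          Nat.add_sub_cancel' hmt]
      · rw [min_eq_right (by omega), min_eq_left (by omega), hk2, hd2]
        obtain ⟨c, rfl⟩ : ∃ c, K = c + 2 := ⟨K - 2, by omega⟩
        obtain ⟨u, rfl⟩ : ∃ u, t = m + u := ⟨t - m, by omega⟩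
        have e2 : m + u - m = u := by omega
        have e3 : c + 2 - 1 = c + 1 := by omega
        have e4 : c + 2 - 2 = c := by omega
        rw [e2, e3, e4]
        ring
      · rw [min_eq_left (by omega), min_eq_left (by omega), hk2, ← hm, ← hk]
        obtain ⟨c, rfl⟩ : ∃ c, K = c + 2 := ⟨K - 2, by omega⟩
        obtain ⟨u, rfl⟩ : ∃ u, t = m + u := ⟨t - m, by omega⟩
        have e2 : m + u - m = u := by omega
        have e4 : c + 2 - 2 = c := by omega
        rw [e2, e4]
        ring
    rw [e5]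
    split_ifs with hd1 hd2
    · have h3 : K * A.card ≤ K * (t * d) := by
        calc K * A.card ≤ S.card * d := hAd
          _ ≤ K * t * d := Nat.mul_le_mul_right _ ht1
          _ = K * (t * d) := by ring
      exact Nat.le_of_mul_le_mul_left h3 (by omega)
    · rw [hd2] at hAd
      have h3 := arith hKe hev hK hTS hr ht1 hAd
      have h4 : T.card + t * (K - 2) = 2 * (t * (K - 2) + m) := by
        rw [← hm]; ring
      omega
    · exact hAT)
  choose φ hφ1 hφ2 using fun j => mk_block (T.filter (fun x => f x = j)) (2 * s j) (hf j).1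
    (hf j).2
  refine ⟨t, s, φ, hφ1, fun j => ?_, ?_, fun v => ?_⟩
  · show K ≤ 2 * (if (j : ℕ) < m then k else k - 1) + 2
    split_ifs <;> omega
  · rw [← hs, mul_sum]
  · constructor
    · intro hv
      obtain ⟨i, hi⟩ := (hφ2 (f v) v).1 (mem_filter.2 ⟨hv, rfl⟩)
      exact ⟨f v, i, hi⟩
    · rintro ⟨j, i, hi⟩
      exact (mem_filter.1 ((hφ2 j v).2 ⟨i, hi⟩)).1

end Pool.Agent.U390.CI
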